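import Pool.Agent.Helper37.KDB.Extra

/-! Project KDB, piece D3. -/

set_option autoImplicit false

namespace KDB.I.D3

open MeasureTheory KDB
open scoped ENNReal

variable (p : Par)

private theorem tau_succ' (k : ℕ) : p.tau (k + 1) = p.L * p.tau k := by
  unfold Par.tau
  rw [show k + 1 + p.q = (k + p.q) + 1 by ring, pow_succ]
  ring

private theorem W_le (hp : p.Ok) (k : ℕ) : p.W k ≤ p.tau k := by
  unfold Par.W Par.tau
  exact Nat.mul_le_mul_left _ (Nat.pow_le_pow_right (by have := hp.hL; omega) (by omega))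

private theorem tau_pos (hp : p.Ok) (k : ℕ) : 0 < p.tau k := by
  unfold Par.tau
  have := hp.hL
  have := hp.hH
  positivity

private theorem tau_mono (hp : p.Ok) {m k : ℕ} (h : m ≤ k) : p.tau m ≤ p.tau k := by
  unfold Par.tau
  exact Nat.mul_le_mul_left _ (Nat.pow_le_pow_right (by have := hp.hL; omega) (by omega))

/-- the phase of `T - tau + r'` and of `T + r'` -/
private theorem ph_eq (hp : p.Ok) (i T : ℕ) (hT : T % p.tau (i + 1) = p.L / 2 * p.tau i)
    (r : ℕ) (hr : r < p.tau i) :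
    p.ph i (T + r) = p.L / 2 * p.tau i + r ∧
      (p.tau i ≤ T → p.ph i (T - p.tau i + r) = (p.L / 2 - 1) * p.tau i + r) := by
  have hL := hp.hL
  obtain ⟨c, hc⟩ := hp.hL4
  have hl2 : p.L / 2 = 2 * c := by omega
  have hts := tau_succ' p i
  have hT2 : T = p.tau (i + 1) * (T / p.tau (i + 1)) + 2 * c * p.tau i := by
    conv_lhs => rw [← Nat.div_add_mod T (p.tau (i + 1)), hT, hl2]
  have hc1 : 250 ≤ c := by omega
  have hcL : (2 * c + 1) * p.tau i ≤ p.tau (i + 1) := by
    rw [hts]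
    exact Nat.mul_le_mul_right _ (by omega)
  have e1 : (2 * c + 1) * p.tau i = 2 * c * p.tau i + p.tau i := by ring
  have e2 : (2 * c - 1) * p.tau i + p.tau i = 2 * c * p.tau i := by
    obtain ⟨b, rfl⟩ : ∃ b, c = b + 1 := ⟨c - 1, by omega⟩
    rw [show 2 * (b + 1) - 1 = 2 * b + 1 by omega]
    ring
  rw [hl2]
  unfold Par.ph
  constructor
  · rw [show T + r = p.tau (i + 1) * (T / p.tau (i + 1)) + (2 * c * p.tau i + r) by omega,
      Nat.mul_add_mod, Nat.mod_eq_of_lt (by omega)]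
  · intro hT1
    rw [show T - p.tau i + r = p.tau (i + 1) * (T / p.tau (i + 1)) + ((2 * c - 1) * p.tau i + r) by
      omega, Nat.mul_add_mod, Nat.mod_eq_of_lt (by omega)]

private theorem sub_one_mul (hp : p.Ok) (i : ℕ) :
    (p.L / 2 - 1) * p.tau i + p.tau i = p.L / 2 * p.tau i := by
  have hL := hp.hL
  obtain ⟨c, hc⟩ := hp.hL4
  have hl2 : p.L / 2 = 2 * c := by omega
  rw [hl2]
  obtain ⟨b, rfl⟩ : ∃ b, c = b + 1 := ⟨c - 1, by omega⟩
  rw [show 2 * (b + 1) - 1 = 2 * b + 1 by omega]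
  ring

/-- the a-window of the final time `T` -/
theorem winA (hp : p.Ok) (i T j : ℕ) (hT : T % p.tau (i + 1) = p.L / 2 * p.tau i)
    (hT1 : p.tau i ≤ T) (hj : j ∈ Finset.Ico (T - p.tau i) (T - p.tau i + p.W i)) :
    p.inA i j ∧ p.hrem i j = p.h * ((T : ℝ) - j - 1) := by
  rw [Finset.mem_Ico] at hj
  obtain ⟨r, rfl⟩ : ∃ r, j = T - p.tau i + r := ⟨j - (T - p.tau i), by omega⟩
  have hW := W_le p hp i
  have hph := (ph_eq p hp i T hT r (by omega)).2 hT1
  refine ⟨?_, ?_⟩
  · unfold Par.inA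
    rw [hph]
    constructor <;> omega
  · unfold Par.hrem
    rw [hph]
    have e := sub_one_mul p hp i
    have e' : ((p.L / 2 - 1 : ℕ) : ℝ) * p.tau i + p.tau i = (p.L / 2 : ℕ) * p.tau i := by
      exact_mod_cast e
    push_cast [Nat.cast_sub hT1]
    rw [← e']
    ring

/-- the b-window of the final time `T` -/
theorem winB (hp : p.Ok) (i T j : ℕ) (hT : T % p.tau (i + 1) = p.L / 2 * p.tau i)
    (hj : j ∈ Finset.Ico T (T + p.W i)) : ¬ p.inA i j ∧ p.inB i j := by
  rw [Finset.mem_Ico] at hj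
  obtain ⟨r, rfl⟩ : ∃ r, j = T + r := ⟨j - T, by omega⟩
  have hW := W_le p hp i
  have hph := (ph_eq p hp i T hT r (by omega)).1
  have e := sub_one_mul p hp i
  unfold Par.inA Par.inB
  rw [hph]
  omega

/-- the steps of an own window outside the a- and b-window are not active -/
theorem winO (hp : p.Ok) (i T j : ℕ) (hT : T % p.tau (i + 1) = p.L / 2 * p.tau i)
    (hT1 : p.tau i ≤ T) (hj : j ∈ Finset.Ico (T - p.tau i + p.W i) T) :
    ¬ p.inA i j ∧ ¬ p.inB i j := by
  rw [Finset.mem_Ico] at hj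
  obtain ⟨r, rfl⟩ : ∃ r, j = T - p.tau i + r := ⟨j - (T - p.tau i), by omega⟩
  have hW := W_le p hp i
  have hph := (ph_eq p hp i T hT r (by omega)).2 hT1
  have e := sub_one_mul p hp i
  unfold Par.inA Par.inB
  rw [hph]
  omega

private theorem div_eq (hp : p.Ok) (k m g e e' : ℕ) (hmk : m ≤ k) (he : g ≤ e)
    (h2 : e' < g + p.tau m) (hA : p.inA k e) (hA' : p.inA k e') :
    e' / p.tau (k + 1) ≤ e / p.tau (k + 1) := by
  by_contra hlt
  push Not at hlt
  have hW := W_le p hp k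
  have ht := tau_pos p hp k
  have hm := tau_mono p hp hmk
  have hts := tau_succ' p k
  have hL := hp.hL
  have e1 := Nat.div_add_mod e (p.tau (k + 1))
  have e2 := Nat.div_add_mod e' (p.tau (k + 1))
  unfold Par.inA Par.ph at hA hA'
  have h3 : p.tau (k + 1) * (e / p.tau (k + 1) + 1) ≤
      p.tau (k + 1) * (e' / p.tau (k + 1)) := Nat.mul_le_mul_left _ hlt
  rw [Nat.mul_add, Nat.mul_one] at h3
  have h4 : 2 * p.tau k ≤ p.tau (k + 1) := by
    rw [hts]
    exact Nat.mul_le_mul_right _ (by omega)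
  omega

/-- two steps of the same a-window belong to the same final time -/
theorem same_T (hp : p.Ok) (k m g e e' : ℕ) (hmk : m ≤ k) (he : g ≤ e) (he' : g ≤ e')
    (h1 : e < g + p.tau m) (h2 : e' < g + p.tau m) (hA : p.inA k e) (hA' : p.inA k e') :
    p.hrem k e + p.h * ((e : ℝ) + 1 - g) = p.hrem k e' + p.h * ((e' : ℝ) + 1 - g) := by
  have hq := le_antisymm (div_eq p hp k m g e e' hmk he h2 hA hA')
    (div_eq p hp k m g e' e hmk he' h1 hA' hA)
  have e1 := Nat.div_add_mod e (p.tau (k + 1))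
  have e2 := Nat.div_add_mod e' (p.tau (k + 1))
  rw [hq] at e2
  have e1' : ((p.tau (k + 1) * (e / p.tau (k + 1)) : ℕ) : ℝ) + (e % p.tau (k + 1) : ℕ) = e := by
    exact_mod_cast e1
  have e2' : ((p.tau (k + 1) * (e / p.tau (k + 1)) : ℕ) : ℝ) + (e' % p.tau (k + 1) : ℕ) = e' := by
    exact_mod_cast e2
  unfold Par.hrem Par.ph
  have h3 : (e : ℝ) - (e % p.tau (k + 1) : ℕ) = e' - (e' % p.tau (k + 1) : ℕ) := by linarith
  linear_combination p.h * h3

end KDB.I.D3
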